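import Mathlib

set_option autoImplicit false
set_option maxHeartbeats 400000

namespace Pool.Agent.H.MP_791a91_al

abbrev B := alternatingGroup (Fin 5)
abbrev Lv := Option (ℕ × ℕ)

def md : Lv → ℤ
  | none => 0
  | some p => 2 ^ p.1 * 6 ^ p.2

@[ext] structure Amb where
  c : Lv → ℤ → B
  n : ℤ
  per : ∀ l x y, md l ∣ x - y → c l x = c l y

namespace Amb

instance : Mul Amb := ⟨fun g h => ⟨fun l x => g.c l x * h.c l (x - g.n), g.n + h.n, fun l x y e => by
  rw [g.per l x y e, h.per l (x - g.n) (y - g.n) (by simpa)]⟩⟩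
instance : One Amb := ⟨⟨fun _ _ => 1, 0, fun _ _ _ _ => rfl⟩⟩
instance : Inv Amb := ⟨fun g => ⟨fun l x => (g.c l (x + g.n))⁻¹, -g.n, fun l x y e => by
  rw [g.per l (x + g.n) (y + g.n) (by simpa)]⟩⟩

@[simp] theorem mul_c (g h : Amb) (l x) : (g * h).c l x = g.c l x * h.c l (x - g.n) := rfl
@[simp] theorem mul_n (g h : Amb) : (g * h).n = g.n + h.n := rfl
@[simp] theorem one_c (l x) : (1 : Amb).c l x = 1 := rfl
@[simp] theorem one_n : (1 : Amb).n = 0 := rfl
@[simp] theorem inv_c (g : Amb) (l x) : g⁻¹.c l x = (g.c l (x + g.n))⁻¹ := rfl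
@[simp] theorem inv_n (g : Amb) : g⁻¹.n = -g.n := rfl

instance : Group Amb := Group.ofLeftAxioms
  (fun a b c => by ext1 <;> simp [funext_iff, add_assoc, mul_assoc, sub_sub])
  (fun a => by ext1 <;> simp [funext_iff])
  (fun a => by ext1 <;> simp [funext_iff])

end Amb

def sh (n : ℤ) : Amb := ⟨fun _ _ => 1, n, fun _ _ _ _ => rfl⟩

def lp (i : ℤ) : B →* Amb where
  toFun b := ⟨fun l x => if md l ∣ x - i then b else 1, 0, fun l x y e => by
    rw [show x - i = x - y + (y - i) by ring]; simp only [dvd_add_right e]⟩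
  map_one' := by ext1 <;> simp [funext_iff]
  map_mul' a b := by
    ext1
    · ext1 l; ext1 x; simp only [Amb.mul_c, sub_zero]; split_ifs <;> simp
    · simp

@[simp] theorem lp_c (i b l x) : (lp i b).c l x = if md l ∣ x - i then b else 1 := rfl
@[simp] theorem lp_n (i b) : (lp i b).n = 0 := rfl
@[simp] theorem sh_c (n l x) : (sh n).c l x = 1 := rfl
@[simp] theorem sh_n (n) : (sh n).n = n := rfl

theorem sh_pow (n : ℤ) : sh 1 ^ n = sh n := by
  have : ∀ n, sh (n + 1) = sh n * sh 1 := fun n => by ext1 <;> simp [funext_iff]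
  induction n using Int.induction_on with
  | zero => rfl
  | succ n ih => rw [zpow_add_one, ih, this]
  | pred n ih => rw [zpow_sub_one, ih, mul_inv_eq_iff_eq_mul, ← this]; simp

section
variable {Γ : Type} [Group Γ]

def lamp (α : Γ) (β : B → Γ) (i : ℤ) (b : B) : Γ := α ^ i * β b * (α ^ i)⁻¹
def prodL (α : Γ) (β : B → Γ) (l : List (ℤ × B)) : Γ := (l.map fun p => lamp α β p.1 p.2).prod

theorem map_lamp {H : Type} [Group H] (f : Γ →* H) (α β i b) :
    f (lamp α β i b) = lamp (f α) (f ∘ β) i b := by simp [lamp]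

theorem map_prodL {H : Type} [Group H] (f : Γ →* H) (α β l) :
    f (prodL α β l) = prodL (f α) (f ∘ β) l := by
  simp [prodL, map_list_prod, Function.comp_def, map_lamp]

theorem prodL_cons (α : Γ) (β p l) : prodL α β (p :: l) = lamp α β p.1 p.2 * prodL α β l := rfl

theorem nf (α : Γ) (β : B →* Γ) {g : Γ} (h : g ∈ Subgroup.closure (insert α (Set.range β))) :
    ∃ l, ∃ n : ℤ, g = prodL α β l * α ^ n := by
  have a : ∀ (m : ℤ) l, α ^ m * prodL α β l = prodL α β (l.map fun p => (m + p.1, p.2)) * α ^ m := fun m l => by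
    induction l with
    | nil => simp [prodL]
    | cons p l ih =>
      rw [List.map_cons, prodL_cons, prodL_cons, mul_assoc, ← ih, lamp, lamp, zpow_add]
      group
  have b : ∀ (m : ℤ) g, (∃ l, ∃ n : ℤ, g = prodL α β l * α ^ n) → ∃ l, ∃ n : ℤ, α ^ m * g = prodL α β l * α ^ n := by
    rintro m _ ⟨l, n, rfl⟩
    exact ⟨_, m + n, by rw [← mul_assoc, a, zpow_add, mul_assoc]⟩
  have c : ∀ b g, (∃ l, ∃ n : ℤ, g = prodL α β l * α ^ n) → ∃ l, ∃ n : ℤ, β b * g = prodL α β l * α ^ n := by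
    rintro b _ ⟨l, n, rfl⟩
    exact ⟨(0, b) :: l, n, by simp [prodL_cons, lamp, mul_assoc]⟩
  induction h using Subgroup.closure_induction_left with
  | one => exact ⟨[], 0, by simp [prodL]⟩
  | mul_left y hy _ _ ih =>
    obtain rfl | ⟨d, rfl⟩ := hy
    exacts [by simpa using b 1 _ ih, c _ _ ih]
  | inv_mul_cancel y hy _ _ ih =>
    obtain rfl | ⟨d, rfl⟩ := hy
    exacts [by simpa using b (-1) _ ih, map_inv β d ▸ c _ _ ih]

end

theorem lamp_eq (i b) : lamp (sh 1) (lp 0) i b = lp i b := by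
  rw [lamp, sh_pow]; ext1 <;> simp [funext_iff]

def G : Subgroup Amb := Subgroup.closure (insert (sh 1) (Set.range (lp 0)))

theorem sh_mem (n : ℤ) : sh n ∈ G := sh_pow n ▸ zpow_mem (Subgroup.subset_closure (by simp)) _

theorem lp_mem (i b) : lp i b ∈ G := by
  rw [← lamp_eq, lamp, sh_pow]
  exact mul_mem (mul_mem (sh_mem _) (Subgroup.subset_closure (by simp))) (inv_mem (sh_mem _))

def Asy (ρ : ℕ) (g : Amb) : Prop :=
  (∀ x : ℤ, ρ < x.natAbs → g.c none x = 1) ∧ ∀ l (x : ℤ), (x.natAbs + ρ : ℤ) < md l → g.c l x = g.c none x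

theorem Asy.mono {ρ ρ' g} (h : Asy ρ g) (l : ρ ≤ ρ') : Asy ρ' g :=
  ⟨fun x e => h.1 x (by omega), fun m x e => h.2 m x (by omega)⟩

theorem asy {g : Amb} (h : g ∈ G) : ∃ ρ, Asy ρ g := by
  induction h using Subgroup.closure_induction with
  | mem y a =>
    obtain rfl | ⟨b, rfl⟩ := a
    · exact ⟨0, by simp [Asy]⟩
    · refine ⟨0, fun x e => if_neg (by simp [md]; omega), fun l x e => ?_⟩
      simp only [lp_c, show md none = 0 from rfl, sub_zero, zero_dvd_iff]
      congr 1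
      exact propext ⟨fun d => Int.eq_zero_of_dvd_of_natAbs_lt_natAbs d (by omega), fun d => by simp [d]⟩
  | one => exact ⟨0, by simp [Asy]⟩
  | mul g h _ _ a b =>
    obtain ⟨ρ, a⟩ := a
    obtain ⟨σ, b⟩ := b
    exact ⟨ρ + σ + g.n.natAbs, fun x e => by simp [a.1 x (by omega), b.1 (x - g.n) (by omega)],
      fun l x e => by simp [a.2 l x (by omega), b.2 l (x - g.n) (by omega)]⟩
  | inv g _ a =>
    obtain ⟨ρ, a⟩ := a
    exact ⟨ρ + g.n.natAbs, fun x e => by simp [a.1 (x + g.n) (by omega)],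
      fun l x e => by simp [a.2 l (x + g.n) (by omega)]⟩

theorem md_pos (p : ℕ × ℕ) : 0 < md (some p) := by simp only [md]; positivity

theorem hom_cases {H : Type} [Group H] (f : B →* H) : (∀ b, f b = 1) ∨ Function.Injective f := by
  obtain e | e := (inferInstance : f.ker.Normal).eq_bot_or_eq_top
  · exact .inr ((MonoidHom.ker_eq_bot_iff f).1 e)
  · exact .inl fun b => (e.ge trivial : b ∈ f.ker)

theorem nonnil : ∃ p q r : B, p * q * p⁻¹ * q⁻¹ * r * (p * q * p⁻¹ * q⁻¹)⁻¹ * r⁻¹ ≠ 1 :=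
  ⟨⟨c[0, 1, 2], Equiv.Perm.mem_alternatingGroup.2 (by decide)⟩,
    ⟨c[2, 3, 4], Equiv.Perm.mem_alternatingGroup.2 (by decide)⟩,
    ⟨c[0, 1, 2], Equiv.Perm.mem_alternatingGroup.2 (by decide)⟩, fun h => by
      have := congrArg Subtype.val h
      simp only [Subgroup.coe_mul, Subgroup.coe_inv, Subgroup.coe_one] at this
      revert this
      decide +kernel⟩

theorem perfect {H : Type} [CommGroup H] (f : B →* H) (b : B) : f b = 1 := by
  refine (hom_cases f).elim (· b) fun h => ?_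
  obtain ⟨p, q, r, e⟩ := nonnil
  exact absurd (h (by simp)) e

end Pool.Agent.H.MP_791a91_al
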