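import Pool.Agent.H.MP_791a91_al.Der

set_option autoImplicit false
set_option maxHeartbeats 400000

namespace Pool.Agent.H.MP_791a91_al

open Filter

theorem core {ι : Type} [Finite ι] (π : FreeGroup ι →* G) (hs : Function.Surjective π) (R : Finset (FreeGroup ι))
    (Φ : Finset (Monoid.End (FreeGroup ι))) (h : ∀ w, π w = 1 ↔ w ∈ Subgroup.normalClosure
      {x | ∃ φ ∈ Submonoid.closure (Φ : Set (Monoid.End (FreeGroup ι))), ∃ r ∈ R, x = φ r}) : False := by
  choose s hp using pr_surj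
  obtain ⟨p, hp⟩ : ∃ p : FreeGroup ι →* P, ∀ w, pr (p w) = π w :=
    ⟨FreeGroup.lift fun i => s (π (.of i)), DFunLike.congr_fun (show pr.comp _ = π by ext1; simp [hp])⟩
  obtain ⟨α, hα⟩ := hs ga
  choose β hβ using fun b => hs (gl 0 b)
  have tl : ∀ u, ∃ w, π w = pr u ∧ ∀ (φ : FreeGroup ι →* Equiv.Perm M) (θ : P →* Equiv.Perm M), θ al = φ α →
      (∀ b, θ (be b) = φ (β b)) → θ u = φ w := fun u => by
    induction gen u using Subgroup.closure_induction with
    | mem y e =>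
      obtain rfl | ⟨b, rfl⟩ := e
      exacts [⟨α, hα.trans pr_al.symm, fun _ _ a _ => a⟩, ⟨β b, hβ b, fun _ _ _ a => a b⟩]
    | one => exact ⟨1, by simp⟩
    | mul g k _ _ a b =>
      obtain ⟨w, a, a'⟩ := a
      obtain ⟨w', b, b'⟩ := b
      exact ⟨w * w', by simp [a, b], fun φ θ c d => by simp [a' φ θ c d, b' φ θ c d]⟩
    | inv g _ a =>
      obtain ⟨w, a, a'⟩ := a
      exact ⟨w⁻¹, by simp [a], fun φ θ c d => by simp [a' φ θ c d]⟩
  have inv : ∀ σ ∈ Φ, ∀ w, π w = 1 → π (σ w) = 1 := fun σ hσ w e =>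
    Subgroup.normalClosure_le_normal (N := (π.comp σ).ker) (by
      rintro _ ⟨φ, a, r, b, rfl⟩
      exact (h _).2 (Subgroup.subset_normalClosure ⟨σ * φ, mul_mem (Submonoid.subset_closure hσ) a, r, b, rfl⟩))
      ((h w).1 e)
  have h1 : ∀ σ ∈ Φ, ∀ᶠ j in atTop, ∀ w, π w = 1 → Kill j (p w) → Kill j (p (σ w)) := fun σ hσ => by
    obtain ⟨f, hf⟩ : ∃ f : G →* G, ∀ w, f (π w) = π (σ w) :=
      ⟨π.liftOfSurjective hs ⟨π.comp σ, inv σ hσ⟩, fun w => MonoidHom.liftOfRightInverse_comp_apply ..⟩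
    by_cases t : (f ga).1.n = 0
    · filter_upwards [eventually_all.2 fun i => memW (u := p (σ (.of i))) (by rw [hp, ← hf, n_map, t, zero_mul])]
        with j a w e _
      refine kill ?_ (by rw [hp, inv σ hσ w e]; exact ⟨rfl, fun _ => rfl⟩)
      refine (Subgroup.closure_le ((W j).comap (p.comp σ))).2 ?_ ((FreeGroup.closure_range_of ι).ge (Subgroup.mem_top w))
      rintro _ ⟨i, rfl⟩
      exact a i
    choose z z1 z2 using fun i => tl (p (.of i))
    filter_upwards [pull f t, eventually_all.2 fun i => kill1 (u := p (σ ((z i)⁻¹ * .of i)))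
      (by rw [hp, inv σ hσ _ (by simp [z1, hp])]), eventually_all.2 fun b => eventually_all.2 fun c =>
        kill1 (u := p (σ ((β (b * c))⁻¹ * (β b * β c)))) (by rw [hp, inv σ hσ _ (by simp [hβ])])]
      with j a b c w _ k ρ θ ty af
    obtain ⟨β', e⟩ : ∃ β' : B →* Equiv.Perm M, ∀ b, β' b = θ (p (σ (β b))) :=
      ⟨.mk' (fun b => θ (p (σ (β b)))) fun x y => by simpa [inv_mul_eq_one] using c x y ρ θ ty af, fun _ => rfl⟩
    have := k _ (lf (θ (p (σ α))) β') (a ρ ty) (aff_gen (fun m m' => by rw [lf_al, af, hp, ← hf, hα]; rfl)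
      fun b m m' => by rw [lf_be, e, af, hp, ← hf, hβ]; rfl)
    rw [← this]
    refine DFunLike.congr_fun (show (θ.comp p).comp σ = (lf (θ (p (σ α))) β').comp p from ?_) w
    ext1 i
    refine Eq.trans ?_ (z2 i ((θ.comp p).comp σ) (lf (θ (p (σ α))) β') (lf_al ..) e).symm
    exact (show θ (p (σ (z i))) = θ (p (σ (.of i))) by simpa [inv_mul_eq_one] using b i ρ θ ty af).symm
  obtain ⟨j, a, b, c, d⟩ := (((eventually_all_finset Φ).2 h1).and (((eventually_all_finset R).2 fun r hr =>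
    kill1 (u := p r) (by rw [hp]; exact (h _).2 (Subgroup.subset_normalClosure ⟨1, one_mem _, r, hr, rfl⟩))).and
      ((kill1 (u := al⁻¹ * p α) (by simp [hp, hα, pr_al])).and (eventually_all.2 fun b =>
        kill1 (u := (be b)⁻¹ * p (β b)) (by simp [hp, hβ, pr_be]))))).exists
  have e : ∀ φ ∈ Submonoid.closure (Φ : Set (Monoid.End (FreeGroup ι))), ∀ w, π w = 1 ∧ Kill j (p w) →
      π (φ w) = 1 ∧ Kill j (p (φ w)) := fun φ hφ => by
    induction hφ using Submonoid.closure_induction with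
    | mem σ hσ => exact fun w k => ⟨inv σ hσ w k.1, a σ hσ w k.1 k.2⟩
    | one => exact fun _ => id
    | mul _ _ _ _ x y => exact fun w k => x _ (y w k)
  obtain ⟨u, u1, u2⟩ := nokill j
  obtain ⟨w, w1, w2⟩ := tl u
  refine u2 fun ρ θ ty af => (w2 (θ.comp p) θ (by simpa [inv_mul_eq_one] using c ρ θ ty af)
    fun x => by simpa [inv_mul_eq_one] using d x ρ θ ty af).trans ?_
  refine Subgroup.normalClosure_le_normal (N := (θ.comp p).ker) ?_ ((h w).1 (w1.trans u1))
  rintro _ ⟨φ, x, r, y, rfl⟩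
  exact (e φ x r ⟨(h _).2 (Subgroup.subset_normalClosure ⟨1, one_mem _, r, y, rfl⟩), b r y⟩).2 ρ θ ty af

end Pool.Agent.H.MP_791a91_al
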