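import Pool.Agent.H.MP_791a91_al.End

set_option autoImplicit false
set_option maxHeartbeats 400000

namespace Pool.Agent.H.MP_791a91_al

open Filter

abbrev M := ℤ → B → B → ℤ
abbrev En := Module.End ℤ M

def Orth (ρ : G →* En) (g h : G) : Prop := (ρ g - 1) * (ρ h - 1) = 0

def Ty (k : ℕ) (ρ : G →* En) : Prop := (∀ g, D g → ρ g = 1) ∧
  ∀ x y b b', (y - x).natAbs ≠ 0 → (y - x).natAbs ≠ k → Orth ρ (gl x b) (gl y b')

theorem pull (f : G →* G) (h : (f ga).1.n ≠ 0) : ∀ᶠ j in atTop, ∀ ρ, Ty (2 ^ j) ρ → Ty (2 ^ j) (ρ.comp f) := by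
  filter_upwards [sep f h] with j hj ρ ⟨a, b⟩
  refine ⟨fun g hg => a _ (map_D f h hg), fun x y c c' e1 e2 => ?_⟩
  refine dec (fun g => Orth ρ g (f (gl y c'))) (fun g hg => by simp [Orth, a g hg]) (fun g h p q => ?_) _
    (n_gl ..) fun s d hs => dec (fun g => Orth ρ (gl s d) g) (fun g hg => by simp [Orth, a g hg])
      (fun g h p q => ?_) _ (n_gl ..) fun s' d' hs' => ?_
  · simp only [Orth, map_mul] at p q ⊢
    rw [show ρ g * ρ h - 1 = ρ g * (ρ h - 1) + (ρ g - 1) by noncomm_ring, add_mul, mul_assoc, p, q]; simp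
  · simp only [Orth, map_mul] at p q ⊢
    rw [show ρ g * ρ h - 1 = (ρ g - 1) * ρ h + (ρ h - 1) by noncomm_ring, mul_add, ← mul_assoc, p, q]; simp
  · have := hj x y s s' ⟨c, hs⟩ ⟨c', hs'⟩
    exact b _ _ _ _ (fun e => (this (.inl e)).elim e1 e2) fun e => (this (.inr e)).elim e1 e2

abbrev P := Monoid.Coprod B (Multiplicative ℤ)
def al : P := .inr (Multiplicative.ofAdd 1)
def be : B →* P := Monoid.Coprod.inl
def lf {H : Type} [Group H] (a : H) (β : B →* H) : P →* H := Monoid.Coprod.lift β (zpowersHom H a)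

@[simp] theorem lf_al {H : Type} [Group H] (a : H) (β : B →* H) : lf a β al = a := by simp [lf, al]
@[simp] theorem lf_be {H : Type} [Group H] (a : H) (β : B →* H) (b) : lf a β (be b) = β b := rfl

theorem gen (u : P) : u ∈ Subgroup.closure (insert al (Set.range be)) := by
  induction u using Monoid.Coprod.induction_on with
  | inl b => exact Subgroup.subset_closure (.inr ⟨b, rfl⟩)
  | inr n =>
    rw [show Monoid.Coprod.inr n = al ^ n.toAdd by rw [al, ← map_zpow, ← ofAdd_zsmul]; simp]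
    exact zpow_mem (Subgroup.subset_closure (.inl rfl)) _
  | mul _ _ a b => exact mul_mem a b

def pr : P →* G := lf ga (gl 0)

theorem pr_al : pr al = ga := lf_al ..
theorem pr_be (b) : pr (be b) = gl 0 b := rfl

theorem pr_surj : Function.Surjective pr := fun g => by
  obtain ⟨u, h⟩ := (Subgroup.closure_le (G.subtype.comp pr).range).2 (by
    rintro _ (rfl | ⟨b, rfl⟩)
    exacts [⟨al, congrArg Subtype.val pr_al⟩, ⟨be b, rfl⟩]) g.2
  exact ⟨u, Subtype.ext h⟩

def lam (x : ℤ) : B →* P := (MulAut.conj (al ^ x)).toMonoidHom.comp be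

theorem lam_eq (x b) : lam x b = al ^ x * be b * (al ^ x)⁻¹ := rfl

theorem pr_lam (x b) : pr (lam x b) = gl x b := by simp [lam_eq, gl_eq x, pr_al, pr_be]

def Aff (ρ : G →* En) (θ : P →* Equiv.Perm M) : Prop := ∀ u m m', θ u (m + m') = θ u m + ρ (pr u) m'

theorem aff_gen {ρ : G →* En} {θ : P →* Equiv.Perm M} (a : ∀ m m', θ al (m + m') = θ al m + ρ ga m')
    (b : ∀ b m m', θ (be b) (m + m') = θ (be b) m + ρ (gl 0 b) m') : Aff ρ θ := fun u => by
  induction gen u using Subgroup.closure_induction with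
  | mem y h =>
    obtain rfl | ⟨d, rfl⟩ := h
    exacts [pr_al ▸ a, b d]
  | one => simp
  | mul g h _ _ p q => simp [p, q]
  | inv g _ p =>
    intro m m'
    apply (θ g).injective
    rw [p, ← Module.End.mul_apply, ← map_mul]
    simp

def W (j : ℕ) : Subgroup P := Subgroup.closure {u | ∃ x b, 2 * Int.natAbs x < 2 ^ j ∧ u = lam x b}

theorem memW {u : P} (h : (pr u).1.n = 0) : ∀ᶠ j in atTop, u ∈ W j := by
  have : ∀ l, (pr (prodL al be l)).1.n = 0 ∧ ∀ᶠ j in atTop, prodL al be l ∈ W j := fun l => by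
    induction l with
    | nil => exact ⟨rfl, .of_forall fun _ => one_mem _⟩
    | cons p l ih =>
      rw [prodL_cons, show lamp al be p.1 p.2 = lam p.1 p.2 from rfl]
      refine ⟨by simp [pr_lam, ih.1], ?_⟩
      filter_upwards [ih.2, eventually_ge_atTop (2 * p.1.natAbs)] with j a b
      exact mul_mem (Subgroup.subset_closure ⟨_, _, b.trans_lt Nat.lt_two_pow_self, rfl⟩) a
  obtain ⟨l, n, rfl⟩ := nf _ _ (gen u)
  rw [map_mul, map_zpow, Subgroup.coe_mul, Amb.mul_n, (this l).1, n_zpow, pr_al] at h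
  obtain rfl : n = 0 := by simpa [ga] using h
  simpa using (this l).2

theorem comm {k ρ θ} (t : Ty k ρ) (a : Aff ρ θ) {x y : ℤ} (h : (y - x).natAbs ≠ 0) (h' : (y - x).natAbs ≠ k) (b b') :
    Commute (θ (lam x b)) (θ (lam y b')) := by
  have e : ∀ x b m, θ (lam x b) m = θ (lam x b) 0 + ρ (gl x b) m := fun x b m => by rw [← pr_lam, ← a, zero_add]
  have key : ∀ x y : ℤ, (y - x).natAbs ≠ 0 → (y - x).natAbs ≠ k → ∀ b b',
      ρ (gl x b) (θ (lam y b') 0) = θ (lam y b') 0 := fun x y h h' b b' => by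
    refine sub_eq_zero.1 (congrArg Multiplicative.toAdd (perfect (MonoidHom.mk'
      (fun c => Multiplicative.ofAdd ((ρ (gl x b) - 1) (θ (lam y c) 0))) fun c d => ?_) b'))
    have := LinearMap.congr_fun (t.2 x y b c h h') (θ (lam y d) 0)
    rw [Module.End.mul_apply, LinearMap.sub_apply (ρ (gl y c)), map_sub, LinearMap.zero_apply, sub_eq_zero] at this
    rw [map_mul, map_mul, Equiv.Perm.mul_apply, e, map_add, this]; rfl
  have c : ρ (gl x b) * ρ (gl y b') = ρ (gl y b') * ρ (gl x b) := by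
    have p := t.2 x y b b' h h'
    have q := t.2 y x b' b (by omega) (by omega)
    simp only [Orth] at p q
    rw [← sub_eq_zero, ← sub_self (0 : En)]
    nth_rw 1 [← p]
    rw [← q]; noncomm_ring
  refine Equiv.ext fun m => ?_
  rw [Equiv.Perm.mul_apply, Equiv.Perm.mul_apply, e x b, e y b' m, e y b' (θ _ m), e x b m, map_add, map_add,
    key x y h h', key y x (by omega) (by omega), ← Module.End.mul_apply, c, add_left_comm]; rfl

def Kill (j : ℕ) (u : P) : Prop := ∀ ρ θ, Ty (2 ^ j) ρ → Aff ρ θ → θ u = 1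

theorem kill {j u} (h : u ∈ W j) (hD : D (pr u)) : Kill j u := fun ρ θ t a => by
  have : Finite {x : ℤ // 2 * x.natAbs < 2 ^ j} := (Set.Finite.subset (Set.finite_Ioo (-(2 ^ j : ℕ) : ℤ) (2 ^ j : ℕ))
    (show {x : ℤ | 2 * x.natAbs < 2 ^ j} ⊆ _ from fun x (e : 2 * x.natAbs < 2 ^ j) =>
      ⟨by omega, by omega⟩)).to_subtype
  have := Fintype.ofFinite {x : ℤ // 2 * x.natAbs < 2 ^ j}
  obtain ⟨Φ, hΦ⟩ : ∃ Φ : ({x : ℤ // 2 * x.natAbs < 2 ^ j} → B) →* Equiv.Perm M,
      ∀ i b, Φ (Pi.mulSingle i b) = θ (lam i b) :=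
    ⟨MonoidHom.noncommPiCoprod (fun i => θ.comp (lam i.1)) fun i i' e => comm t a
      (fun h => e (Subtype.ext (by omega))) (by have := i.2; have := i'.2; omega),
      fun i b => by rw [MonoidHom.noncommPiCoprod_mulSingle]; rfl⟩
  have : (pr u).1.n = 0 ∧ θ u = Φ fun i => (pr u).1.c none i := by
    clear hD
    induction h using Subgroup.closure_induction with
    | mem y h =>
      obtain ⟨x, b, e, rfl⟩ := h
      refine ⟨by simp [pr_lam], (hΦ ⟨x, e⟩ b).symm.trans (congrArg _ (funext fun i => ?_))⟩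
      simp [pr_lam, md, Pi.mulSingle_apply, sub_eq_zero, Subtype.ext_iff]
    | one => exact ⟨rfl, (map_one θ).trans (map_one Φ).symm⟩
    | mul g h _ _ p q =>
      refine ⟨by simp [p.1, q.1], ?_⟩
      rw [map_mul, p.2, q.2, ← map_mul]
      exact congrArg _ (funext fun i => by simp [p.1])
    | inv g _ p =>
      refine ⟨by simp [p.1], ?_⟩
      rw [map_inv, p.2, ← map_inv]
      exact congrArg _ (funext fun i => by simp [p.1])
  rw [this.2, funext fun i => hD.2 _]
  exact map_one Φ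

theorem kill1 {u} (h : pr u = 1) : ∀ᶠ j in atTop, Kill j u :=
  (memW (by rw [h]; rfl)).mono fun _ a => kill a (h ▸ ⟨rfl, fun _ => rfl⟩)

def r0 (k : ℤ) : G →* En where
  toFun g := ⟨⟨fun m z p q => m (z - g.1.n) ((g.1.c none z)⁻¹ * p) ((g.1.c none (z + k))⁻¹ * q),
    fun _ _ => rfl⟩, fun _ _ => rfl⟩
  map_one' := LinearMap.ext fun m => funext₃ fun z p q => by simp
  map_mul' g h := LinearMap.ext fun m => funext₃ fun z p q => by
    simp [sub_sub, mul_assoc, sub_add_eq_add_sub]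

theorem r0_apply (k g m z p q) :
    r0 k g m z p q = m (z - g.1.n) ((g.1.c none z)⁻¹ * p) ((g.1.c none (z + k))⁻¹ * q) := rfl

def p0 (k : ℤ) : G →* Equiv.Perm M := MonoidHom.toHomPerm ⟨⟨fun g m => r0 k g m, funext fun m => by simp; rfl⟩,
  fun g h => funext fun m => by simp; rfl⟩

theorem p0_apply (k g m) : p0 k g m = r0 k g m := rfl

def v : M := fun z p q => if z = 0 ∧ p = 1 ∧ q = 1 then 1 else 0

def th (k : ℤ) : P →* Equiv.Perm M :=
  lf (p0 k ga) (((MulAut.conj (Equiv.addLeft v)).toMonoidHom.comp (p0 k)).comp (gl 0))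

theorem th_be (k b m) : th k (be b) m = v + r0 k (gl 0 b) (-v + m) := rfl

theorem th_lam (k x b m z p q) : th k (lam x b) m z p q = v (z - x) p q +
    (m z ((if z = x then b else 1)⁻¹ * p) ((if z + k = x then b else 1)⁻¹ * q) -
      v (z - x) ((if z = x then b else 1)⁻¹ * p) ((if z + k = x then b else 1)⁻¹ * q)) := by
  have : th k (al ^ x) = p0 k (ga ^ x) := by simp [th]
  have e : (ga ^ x).1 = sh x := sh_pow x
  rw [lam_eq, map_mul, map_mul, map_inv, this, ← map_inv]
  simp only [Equiv.Perm.mul_apply, p0_apply, r0_apply, th_be, Pi.add_apply, Pi.neg_apply, Subgroup.coe_inv, e]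
  simp [md, sub_eq_zero, sub_add_eq_add_sub, neg_add_eq_sub]

theorem nokill (j : ℕ) : ∃ u, pr u = 1 ∧ ¬ Kill j u := by
  obtain ⟨b, hb⟩ := exists_ne (1 : B)
  obtain ⟨k, hk⟩ : ∃ k : ℤ, k = (2 ^ j : ℕ) := ⟨_, rfl⟩
  have k0 : 0 < 2 ^ j := by positivity
  refine ⟨lam 0 b * lam k b * lam 0 b⁻¹ * lam k b⁻¹ * (lam 0 b * lam (-k) b * lam 0 b⁻¹ * lam (-k) b⁻¹)⁻¹, ?_,
    fun h => ?_⟩
  · rw [map_mul, map_inv pr, mul_inv_eq_one]
    simp only [map_mul pr, pr_lam]
    ext1; ext1
    · ext1 μ; ext1 y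
      simp only [Subgroup.coe_mul, gl_val, Amb.mul_c, Amb.mul_n, lp_n, lp_c, add_zero, sub_zero]
      by_cases a : md μ ∣ y
      · simp only [sub_neg_eq_add, dvd_add_right a, dvd_sub_right a]
      · simp [a]; split_ifs <;> simp
    · simp
  have := h (r0 k) (th k) ⟨fun g hg => LinearMap.ext fun m => funext₃ fun z p q => by simp [r0_apply, hg.1, hg.2],
    fun x y c c' e1 e2 => LinearMap.ext fun m => funext₃ fun z p q => ?_⟩
    (aff_gen (fun m m' => by simp [th, p0_apply]) fun b m m' => by simp [th_be, add_assoc])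
  · rw [map_mul, map_inv (th k), mul_inv_eq_one] at this
    have := congrFun₃ (Equiv.ext_iff.1 this 0) 0 1 1
    have a : k ≠ 0 := by omega
    have a' : k ≠ -k := by omega
    simp only [map_mul (th k), Equiv.Perm.mul_apply, th_lam] at this
    simp [v, a, a.symm, a', hb] at this
  simp only [Module.End.mul_apply, LinearMap.sub_apply, Pi.sub_apply, r0_apply, Module.End.one_apply, gl_val,
    lp_n, lp_c, md, zero_dvd_iff, sub_zero, LinearMap.zero_apply, Pi.zero_apply]
  by_cases a : z - x = 0 <;> by_cases a' : z + k - x = 0 <;> by_cases d : z - y = 0 <;>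
    by_cases d' : z + k - y = 0 <;> first | omega | simp [a, a', d, d']

end Pool.Agent.H.MP_791a91_al
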