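import Pool.Agent.H.MP_791a91_al.Amb

set_option autoImplicit false
set_option maxHeartbeats 400000

namespace Pool.Agent.H.MP_791a91_al

def ga : G := ⟨sh 1, sh_mem 1⟩
def gl (i : ℤ) : B →* G := (lp i).codRestrict G (lp_mem i)

@[simp] theorem gl_val (i b) : (gl i b).1 = lp i b := rfl

theorem gl_eq (i b) : gl i b = ga ^ i * gl 0 b * (ga ^ i)⁻¹ := Subtype.ext (lamp_eq i b).symm

def D (g : G) : Prop := g.1.n = 0 ∧ ∀ x, g.1.c none x = 1

def nh : G →* Multiplicative ℤ := ⟨⟨fun g => .ofAdd g.1.n, rfl⟩, fun _ _ => rfl⟩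

theorem n_zpow (g : G) (i : ℤ) : (g ^ i).1.n = g.1.n * i := by
  have := congrArg Multiplicative.toAdd (map_zpow nh g i)
  rw [toAdd_zpow, smul_eq_mul, mul_comm] at this
  exact this

variable (f : G →* G)

theorem n_map (g : G) : (f g).1.n = (f ga).1.n * g.1.n := by
  obtain ⟨g, hg⟩ := g
  induction hg using Subgroup.closure_induction with
  | mem y a =>
    obtain rfl | ⟨b, rfl⟩ := a
    · exact (mul_one _).symm
    · exact (congrArg Multiplicative.toAdd (perfect (nh.comp (f.comp (gl 0))) b)).trans (mul_zero _).symm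
  | one => exact (congrArg (fun g : G => g.1.n) (map_one f)).trans (mul_zero _).symm
  | mul g h hg hh a b =>
    refine (congrArg (fun g : G => g.1.n) (map_mul f ⟨g, hg⟩ ⟨h, hh⟩)).trans ?_
    simp [a, b, mul_add]
  | inv g hg a =>
    refine (congrArg (fun g : G => g.1.n) (map_inv f ⟨g, hg⟩)).trans ?_
    simp [a]

theorem n_gl (i b) : (f (gl i b)).1.n = 0 := by simp [n_map f (gl i b)]

def ev (l : Lv) (i x : ℤ) : B →* B := MonoidHom.mk' (fun b => (f (gl i b)).1.c l x) (by simp [n_gl])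

def U (l : Lv) (i x : ℤ) : Prop := ∃ b, (f (gl i b)).1.c l x ≠ 1

theorem U_shift (l i x) : U f l i x ↔ U f l 0 (x - (f ga).1.n * i) := by
  refine exists_congr fun b => ?_
  rw [gl_eq, map_mul, map_mul, map_inv, map_zpow, ← n_zpow]
  simp [n_gl]

theorem U_per {l i x y} (h : U f l i x) (e : md l ∣ x - y) : U f l i y :=
  h.imp fun b k => Amb.per _ l x y e ▸ k

theorem lemJ {l i k x} (e : ∀ μ, md μ ∣ i → md μ ∣ k) (h0 : U f l 0 x) (hi : U f l i x) : U f l k x := by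
  have s : ∀ i, U f l i x → Function.Surjective (ev f l i x) := fun i ⟨b, h⟩ =>
    Finite.surjective_of_injective ((hom_cases _).resolve_left fun a => h (a b))
  obtain ⟨p, q, r, h⟩ := nonnil
  obtain ⟨p, rfl⟩ := s _ h0 p
  obtain ⟨q, rfl⟩ := s _ hi q
  obtain ⟨r, rfl⟩ := s _ h0 r
  refine ⟨r, fun a => h ?_⟩
  have : gl 0 p * gl i q * gl 0 p⁻¹ * gl i q⁻¹ * gl 0 r * (gl i q * gl 0 p * gl i q⁻¹ * gl 0 p⁻¹) * gl 0 r⁻¹ =
      gl 0 p * gl i q * gl 0 p⁻¹ * gl i q⁻¹ * gl k r * (gl i q * gl 0 p * gl i q⁻¹ * gl 0 p⁻¹) * gl k r⁻¹ := by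
    ext1; ext1
    · ext1 μ; ext1 y
      simp only [Subgroup.coe_mul, gl_val, Amb.mul_c, Amb.mul_n, lp_n, lp_c, add_zero, sub_zero]
      by_cases a : md μ ∣ y
      · by_cases b : md μ ∣ y - i
        · simp only [a, dvd_sub a (e μ (by simpa using dvd_sub a b))]
        · simp [b]; split_ifs <;> simp
      · simp [a]; split_ifs <;> simp
    · simp
  have := congrArg (fun g => (f g).1.c l x) this
  simp only [map_mul, Subgroup.coe_mul, Amb.mul_c, Amb.mul_n, n_gl, add_zero, sub_zero] at this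
  change ev f l 0 x p * ev f l i x q * ev f l 0 x p⁻¹ * ev f l i x q⁻¹ * ev f l 0 x r *
    (ev f l i x q * ev f l 0 x p * ev f l i x q⁻¹ * ev f l 0 x p⁻¹) * ev f l 0 x r⁻¹ =
    ev f l 0 x p * ev f l i x q * ev f l 0 x p⁻¹ * ev f l i x q⁻¹ * ev f l k x r *
    (ev f l i x q * ev f l 0 x p * ev f l i x q⁻¹ * ev f l 0 x p⁻¹) * ev f l k x r⁻¹ at this
  simp only [map_inv, show ev f l k x r = 1 from a] at this
  simp only [mul_inv_rev, inv_inv, ← mul_assoc] at this ⊢
  rw [this]; group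

theorem rad : ∃ ρ : ℕ, (∀ x, U f none 0 x → x.natAbs ≤ ρ) ∧
    ∀ l (x : ℤ), (x.natAbs + ρ : ℤ) < md l → (U f l 0 x ↔ U f none 0 x) := by
  choose r hr using fun b => asy (f (gl 0 b)).2
  have : ∀ b, Asy (Finset.univ.sup r) (f (gl 0 b)).1 := fun b => (hr b).mono (Finset.le_sup (by simp))
  exact ⟨_, fun x ⟨b, h⟩ => not_lt.1 fun e => h ((this b).1 x e),
    fun l x e => exists_congr fun b => by rw [(this b).2 l x e]⟩

theorem lemC {ρ : ℕ} {l s s' i} (h1 : ∀ x, U f none 0 x → x.natAbs ≤ ρ)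
    (h2 : ∀ x : ℤ, x.natAbs ≤ 3 * ρ → (U f l 0 x ↔ U f none 0 x)) (hs : U f none 0 s) (hs' : U f none 0 s')
    (e : md l ∣ (f ga).1.n * i + s - s') : s = s' := by
  have a := h1 _ hs
  have a' := h1 _ hs'
  have b : ∀ t : ℤ, U f l 0 (s' + t * (s - s')) := fun t => by
    have := lemJ f (k := t * i) (fun μ h => h.mul_left t) ((h2 s' (by omega)).2 hs')
      ((U_shift ..).2 (U_per f ((h2 s (by omega)).2 hs) (by rwa [show ∀ z, s - (s' - z) = z + s - s' from fun z => by ring])))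
    exact U_per f ((U_shift ..).1 this) ((e.mul_left (-t)).trans (dvd_of_eq (by ring)))
  have c : ∀ t : ℕ, (s' + t * (s - s')).natAbs ≤ ρ := fun t => by
    induction t with
    | zero => simpa
    | succ t ih => exact h1 _ ((h2 _ (by push_cast; rw [add_mul, one_mul, ← add_assoc]; omega)).1 (b _))
  by_contra h
  have c := c (2 * ρ + 1)
  have : 2 * ρ + 1 ≤ (((2 * ρ + 1 : ℕ) : ℤ) * (s - s')).natAbs := by
    rw [Int.natAbs_mul, Int.natAbs_natCast]; exact Nat.le_mul_of_pos_right _ (by omega)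
  omega

theorem lemE {s j} (hs : U f none 0 s) (h : (f ga).1.n ∣ 2 ^ j) : (f ga).1.n = 1 ∨ (f ga).1.n = -1 := by
  obtain ⟨ρ, h1, h2⟩ := rad f
  have cp : ∀ a b : ℕ, IsCoprime ((2 : ℤ) ^ a) (3 ^ b) := fun a b =>
    IsCoprime.pow ⟨-1, 1, by norm_num⟩
  obtain ⟨e, he | he⟩ := Int.even_or_odd' (f ga).1.n
  swap
  · exact Int.isUnit_iff.1 ((IsCoprime.pow_right (n := j) ⟨1, -e, by rw [he]; ring⟩).isUnit_of_dvd h)
  exfalso
  obtain ⟨t, ht⟩ := h
  obtain ⟨n, hn⟩ : ∃ n, n = j + ρ := ⟨_, rfl⟩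
  have m : md (some (0, n + 1)) = (f ga).1.n * (t * 2 ^ (ρ + 1) * 3 ^ n * 3) := by
    simp only [md]
    rw [show (6 : ℤ) = 2 * 3 from rfl, mul_pow, show n + 1 = j + (ρ + 1) by omega, pow_add 2, ht,
      show j + (ρ + 1) = n + 1 by omega]; ring
  have lt : (ρ : ℤ) < 6 ^ n := by
    exact_mod_cast lt_of_le_of_lt (by omega) (Nat.lt_pow_self (by norm_num))
  have m' : md (some (0, n + 1)) = 6 * 6 ^ n := by simp [md, pow_succ']
  have a := h1 _ hs
  have b : U f (some (0, n + 1)) 0 s := (h2 _ _ (by omega)).2 hs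
  have c := lemJ f (i := t * 2 ^ (ρ + 1) * 3 ^ n * 3) (k := t * 2 ^ (ρ + 1) * 3 ^ n) (fun μ hμ => ?_) b
    ((U_shift ..).2 (U_per f b (by rw [m]; simp)))
  · rw [U_shift] at c
    have := h1 _ ((h2 _ _ ?_).1 c)
    all_goals
      have : (f ga).1.n * (t * 2 ^ (ρ + 1) * 3 ^ n) = 2 * 6 ^ n := by linarith
      omega
  obtain _ | ⟨p, q⟩ := μ
  · rw [zero_dvd_iff.1 (show 0 ∣ t * 2 ^ (ρ + 1) * 3 ^ n * 3 from hμ)] at m; omega
  have k : md (some (p, q)) = 2 ^ (p + q) * 3 ^ q := by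
    simp only [md]
    rw [show (6 : ℤ) = 2 * 3 from rfl, mul_pow]; ring
  rw [k] at hμ ⊢
  have k1 := dvd_of_mul_right_dvd hμ
  refine (cp _ _).mul_dvd (IsCoprime.dvd_of_dvd_mul_right (by simpa using cp (p + q) 1) k1)
    ((pow_dvd_pow _ ?_).mul_left _)
  have : (2 : ℤ) ^ (p + q + 1) ∣ 2 ^ (n + 1) * 3 ^ (n + 1) := by
    rw [← mul_pow, show (2 * 3 : ℤ) ^ (n + 1) = md (some (0, n + 1)) by simp [md], m, he, pow_succ', mul_assoc]
    exact mul_dvd_mul_left _ (k1.mul_left _)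
  have := (pow_dvd_pow_iff (by norm_num) (by simp [Int.isUnit_iff])).1 ((cp _ _).dvd_of_dvd_mul_right this)
  omega

theorem sep (h : (f ga).1.n ≠ 0) : ∀ᶠ j : ℕ in Filter.atTop, ∀ x y s s', U f none x s → U f none y s' →
    (s' - s).natAbs = 0 ∨ (s' - s).natAbs = 2 ^ j → (y - x).natAbs = 0 ∨ (y - x).natAbs = 2 ^ j := by
  obtain ⟨ρ, h1, h2⟩ := rad f
  filter_upwards [Filter.eventually_ge_atTop (4 * ρ)] with j hj x y s s' a b e
  rw [U_shift] at a b
  have k : (f ga).1.n * (y - x) + (s' - (f ga).1.n * y) - (s - (f ga).1.n * x) = s' - s := by ring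
  obtain e | e := e
  · have := lemC f (l := none) (i := y - x) h1 (fun _ _ => Iff.rfl) b a (by rw [k]; simp [md]; omega)
    have : (f ga).1.n * (y - x) = 0 := by omega
    exact .inl (by simp [(mul_eq_zero.1 this).resolve_left h])
  have m : md (some (j, 0)) = (2 ^ j : ℕ) := by simp [md]
  have lt : j < 2 ^ j := Nat.lt_two_pow_self
  have := lemC f (l := some (j, 0)) (i := y - x) h1 (fun _ _ => h2 _ _ (by omega)) b a
    (by rw [k, m, ← e]; simp)
  have g : (f ga).1.n * (y - x) = s' - s := by omega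
  have := lemE f (j := j) a (by
    rw [← Int.dvd_natAbs, ← Int.natAbs_dvd, Int.natCast_dvd_natCast, Int.natAbs_pow, ← show _ = (2 : ℤ).natAbs ^ j from e,
      ← g, Int.natAbs_mul]; simp)
  right
  obtain t | t := this <;> rw [t] at g <;> omega

theorem map_D (h : (f ga).1.n ≠ 0) {g : G} (hg : D g) : D (f g) := by
  have n0 : (f g).1.n = 0 := by rw [n_map, hg.1, mul_zero]
  refine ⟨n0, fun x => ?_⟩
  obtain ⟨ρ, -, r⟩ := asy g.2
  have c : ga ^ ((2 * ρ).factorial : ℤ) * g = g * ga ^ ((2 * ρ).factorial : ℤ) := by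
    ext1
    simp only [Subgroup.coe_mul, Subgroup.coe_zpow, ga, sh_pow]
    ext1
    swap; simp [hg.1]
    ext1 l; ext1 y
    simp only [Amb.mul_c, sh_c, sh_n, one_mul, mul_one]
    obtain _ | l := l
    · simp [hg.2]
    have p := md_pos l
    by_cases e : md (some l) ≤ 2 * ρ
    · refine g.1.per _ _ _ ?_
      obtain ⟨μ, k⟩ := Int.eq_ofNat_of_zero_le p.le
      rw [k] at e p ⊢
      simpa using Int.natCast_dvd_natCast.2 (Nat.dvd_factorial (by omega) (show μ ≤ 2 * ρ by omega))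
    have : ∀ y, g.1.c (some l) y = 1 := fun y => by
      have a := Int.emod_nonneg (y + ρ) p.ne'
      have b := Int.emod_lt_of_pos (y + ρ) p
      rw [g.1.per _ y ((y + ρ) % md (some l) - ρ) (by
        rw [show ∀ z, y - (z - ρ) = y + ρ - z from fun z => by ring]; exact Int.dvd_self_sub_emod), r _ _ (by omega), hg.2]
    simp [this]
  have c := congrArg f c
  rw [map_mul, map_mul, map_zpow] at c
  have t := n_zpow (f ga) ((2 * ρ).factorial : ℤ)
  generalize f ga ^ ((2 * ρ).factorial : ℤ) = A at c t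
  have t : A.1.n ≠ 0 := t ▸ mul_ne_zero h (by exact_mod_cast Nat.factorial_ne_zero _)
  by_contra a
  have b : ∀ k : ℕ, (f g).1.c none (x - k * A.1.n) ≠ 1 := fun k => by
    induction k with
    | zero => simpa
    | succ k ih =>
      intro e
      have := congrArg (fun g : G => g.1.c none (x - k * A.1.n)) c
      simp only [Subgroup.coe_mul, Amb.mul_c, n0, sub_zero] at this
      rw [show x - k * A.1.n - A.1.n = x - (k + 1 : ℕ) * A.1.n by push_cast; ring, e] at this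
      exact ih (by simpa using this)
  obtain ⟨σ, r, -⟩ := asy (f g).2
  refine b (σ + x.natAbs + 1) (r _ ?_)
  have : σ + x.natAbs + 1 ≤ (((σ + x.natAbs + 1 : ℕ) : ℤ) * A.1.n).natAbs := by
    rw [Int.natAbs_mul, Int.natAbs_natCast]; exact Nat.le_mul_of_pos_right _ (by omega)
  omega

theorem dec (Q : G → Prop) (hD : ∀ g, D g → Q g) (hm : ∀ g h, Q g → Q h → Q (g * h)) (g : G) (h0 : g.1.n = 0)
    (hl : ∀ s b, g.1.c none s ≠ 1 → Q (gl s b)) : Q g := by
  obtain ⟨ρ, r, -⟩ := asy g.2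
  obtain ⟨T, hT⟩ : ∃ T : Finset ℤ, ∀ s ∉ T, g.1.c none s = 1 :=
    ⟨Finset.Icc (-ρ) ρ, fun s e => r s (by simp at e; omega)⟩
  clear r
  induction T using Finset.induction_on generalizing g with
  | empty => exact hD g ⟨h0, by simpa using hT⟩
  | insert s T _ ih =>
    by_cases e : g.1.c none s = 1
    · exact ih g h0 hl fun x k => if a : x = s then a ▸ e else hT x (by simp [a, k])
    rw [← mul_inv_cancel_left (gl s (g.1.c none s)) g]
    have : ∀ x, ((gl s (g.1.c none s))⁻¹ * g).1.c none x = if x = s then 1 else g.1.c none x := fun x => by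
      by_cases a : x = s <;> simp [md, a, sub_eq_zero]
    refine hm _ _ (hl _ _ e) (ih _ (by simp [h0]) (fun x b k => hl _ _ fun a => k ?_) fun x k => ?_)
    · rw [this, a, ite_self]
    · rw [this]; split_ifs with a
      exacts [rfl, hT x (by simp [a, k])]

end Pool.Agent.H.MP_791a91_al
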