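import Pool.Agent.H.MP_791a91_al.Amb

set_option autoImplicit false
set_option maxHeartbeats 400000

namespace Pool.Agent.H.MP_791a91_al

def dg (t : Bool) : ℤ := if t then 6 else 2

theorem dg_pos (t : Bool) : 0 < dg t := by cases t <;> decide

abbrev X := {p : Bool × ℤ // 0 ≤ p.2 ∧ p.2 < dg p.1} ⊕ Fin 5

instance : Finite {p : Bool × ℤ // 0 ≤ p.2 ∧ p.2 < dg p.1} :=
  (Set.Finite.subset (Set.finite_univ.prod (Set.finite_Icc (0 : ℤ) 6))
    (show {p : Bool × ℤ | 0 ≤ p.2 ∧ p.2 < dg p.1} ⊆ _ from fun ⟨t, r⟩ ⟨h1, h2⟩ => by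
      cases t <;> simp [dg] at h1 h2 ⊢ <;> omega)).to_subtype

def nx (t : Bool) : Lv → Lv
  | none => none
  | some p => if t then some (p.1, p.2 + 1) else some (p.1 + 1, p.2)

theorem md_nx (t l) : md (nx t l) = dg t * md l := by
  cases l <;> cases t <;> simp [md, nx, dg] <;> ring

def sec (g : Amb) (t : Bool) (r : ℤ) : Amb :=
  ⟨fun l x => g.c (nx t l) ((r + g.n) % dg t + dg t * x), (r + g.n) / dg t, fun l x y e => g.per _ _ _ (by
    rw [md_nx, add_sub_add_left_eq_sub, ← mul_sub]; exact mul_dvd_mul_left _ e)⟩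

theorem sec_mul (g h : Amb) (t r) : sec (g * h) t r = sec g t ((r + h.n) % dg t) * sec h t r := by
  ext1
  · ext1 l; ext1 x
    simp only [sec, Amb.mul_c, Amb.mul_n]
    congr 2 <;> cases t <;> simp [dg] <;> omega
  · simp only [sec, Amb.mul_n]
    cases t <;> simp [dg] <;> omega

def out (g : Amb) : X → X
  | .inl p => .inl ⟨(p.1.1, (p.1.2 + g.n) % dg p.1.1), Int.emod_nonneg _ (dg_pos _).ne',
      Int.emod_lt_of_pos _ (dg_pos _)⟩
  | .inr y => .inr ((g.c (some (0, 0)) 0).1 y)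

def sc (g : Amb) : X → Amb
  | .inl p => sec g p.1.1 p.1.2
  | .inr _ => 1

theorem out_mul (g h : Amb) (x) : out (g * h) x = out g (out h x) := by
  obtain ⟨⟨t, r⟩, e⟩ | y := x
  · simp [out, add_comm g.n, add_assoc]
  · simp [out, h.per (some (0, 0)) (-g.n) 0 (by simp [md])]

theorem sc_mul (g h : Amb) (x) : sc (g * h) x = sc g (out h x) * sc h x := by
  obtain ⟨⟨t, r⟩, e⟩ | y := x
  · exact sec_mul ..
  · simp [out, sc]

theorem out_one (x) : out 1 x = x := by
  obtain ⟨⟨t, r⟩, e⟩ | y := x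
  · simp [out, Int.emod_eq_of_lt e.1 e.2]
  · simp [out]

theorem sc_one (x) : sc 1 x = 1 := by
  obtain ⟨⟨t, r⟩, e⟩ | y := x
  · ext1
    · rfl
    · simpa [sc, sec] using Int.ediv_eq_zero_of_lt e.1 e.2
  · rfl

noncomputable abbrev d := Nat.card X
noncomputable def en : X ≃ Fin d := Finite.equivFin X

noncomputable def act : Amb → List (Fin d) → List (Fin d)
  | _, [] => []
  | g, x :: w => en (out g (en.symm x)) :: act (sc g (en.symm x)) w

theorem act_mul (w : List (Fin d)) : ∀ g h, act (g * h) w = act g (act h w) := by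
  induction w with
  | nil => intro g h; rfl
  | cons x w ih => intro g h; simp [act, out_mul, sc_mul, ih]

theorem act_one (w : List (Fin d)) : act 1 w = w := by
  induction w with
  | nil => rfl
  | cons x w ih => simp [act, out_one, sc_one, ih]

noncomputable def rho : Amb →* Equiv.Perm (List (Fin d)) :=
  MonoidHom.toHomPerm ⟨⟨act, funext act_one⟩, fun g h => funext fun w => act_mul w g h⟩

theorem rho_apply (g w) : rho g w = act g w := rfl

theorem triv_step {g : Amb} (h : rho g = 1) (x) : out g x = x ∧ rho (sc g x) = 1 := by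
  have : ∀ w, act g (en x :: w) = en x :: w := fun w => Equiv.ext_iff.1 h (en x :: w)
  simp only [act, Equiv.symm_apply_apply, List.cons.injEq, EmbeddingLike.apply_eq_iff_eq] at this
  exact ⟨(this []).1, Equiv.ext fun w => (this w).2⟩

theorem faithful {g : Amb} (hg : g ∈ G) (h : rho g = 1) : g = 1 := by
  have a : ∀ k (g : Amb), g.n.natAbs ≤ k → rho g = 1 → g.n = 0 := fun k => by
    induction k with
    | zero => intro g e _; omega
    | succ k ih =>
      intro g e h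
      obtain ⟨h1, h2⟩ := triv_step h (.inl ⟨(false, 0), by decide⟩)
      have h1 : (0 + g.n) % 2 = 0 := congrArg (fun p => p.1.2) (Sum.inl.inj h1)
      have := ih _ (by simp [sc, sec, dg]; omega) h2
      simp [sc, sec, dg] at this
      omega
  have b : ∀ k i j, i + j = k → ∀ g : Amb, rho g = 1 → ∀ x, g.c (some (i, j)) x = 1 := fun k => by
    have st : ∀ t l, (∀ g : Amb, rho g = 1 → ∀ x, g.c l x = 1) → ∀ g : Amb, rho g = 1 → ∀ x,
        g.c (nx t l) x = 1 := fun t l ih g h x => by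
      have := ih _ (triv_step h (.inl ⟨(t, x % dg t), Int.emod_nonneg _ (dg_pos _).ne',
        Int.emod_lt_of_pos _ (dg_pos _)⟩)).2 (x / dg t)
      simpa [sc, sec, a _ g le_rfl h, Int.emod_add_mul_ediv] using this
    induction k with
    | zero =>
      intro i j e g h x
      obtain rfl : i = 0 := by omega
      obtain rfl : j = 0 := by omega
      rw [g.per _ x 0 (by simp [md])]
      exact Subtype.ext (Equiv.ext fun y => by simpa [out] using (triv_step h (.inr y)).1)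
    | succ k ih =>
      intro i j e
      obtain _ | i := i
      · obtain _ | j := j
        · omega
        · exact st true (some (0, j)) (ih _ _ (by omega))
      · exact st false (some (i, j)) (ih _ _ (by omega))
  obtain ⟨ρ, -, r⟩ := asy hg
  ext1
  · ext1 l; ext1 x
    obtain _ | ⟨i, j⟩ := l
    · rw [← r (some (x.natAbs + ρ, 0)) x (by
        simp only [md, pow_zero, mul_one]; exact_mod_cast Nat.lt_two_pow_self)]
      exact b _ _ _ rfl g h x
    · exact b _ _ _ rfl g h x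
  · exact a _ g le_rfl h

theorem sec_lp (i b t r) : (sec (lp i b) t r = if dg t ∣ i - r then lp ((i - r % dg t) / dg t) b else 1) ∨
    ¬ (0 ≤ r ∧ r < dg t) := by
  by_cases h : 0 ≤ r ∧ r < dg t
  swap; exact .inr h
  left
  have hr := Int.emod_eq_of_lt h.1 h.2
  split_ifs with e
  · obtain ⟨q, e⟩ := e
    ext1
    · ext1 l; ext1 x
      simp only [sec, lp_c, lp_n, add_zero, hr, md_nx, e, Int.mul_ediv_cancel_left _ (dg_pos t).ne']
      rw [show r + dg t * x - i = dg t * (x - q) by linear_combination -e]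
      simp only [mul_dvd_mul_iff_left (dg_pos t).ne']
    · simpa [sec] using Int.ediv_eq_zero_of_lt h.1 h.2
  · ext1
    · ext1 l; ext1 x
      simp only [sec, lp_c, lp_n, add_zero, hr, md_nx]
      refine if_neg fun f => e ?_
      have := dvd_sub (dvd_mul_right (dg t) x) (dvd_of_mul_right_dvd f)
      rwa [show dg t * x - (r + dg t * x - i) = i - r by ring] at this
    · simpa [sec] using Int.ediv_eq_zero_of_lt h.1 h.2

theorem prodL_n (l) : (prodL (sh 1) (lp 0) l).n = 0 := by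
  induction l with
  | nil => rfl
  | cons p l ih => simp [prodL_cons, ih, lamp_eq]

theorem sec_prodL {t r} (h : 0 ≤ r ∧ r < dg t) (l : List (ℤ × B)) : ∃ l' : List (ℤ × B),
    sec (prodL (sh 1) (lp 0) l) t r = prodL (sh 1) (lp 0) l' ∧
      ∀ p ∈ l', ∃ q ∈ l, q.1 = r + dg t * p.1 := by
  have hr := Int.emod_eq_of_lt h.1 h.2
  induction l with
  | nil => exact ⟨[], sc_one (.inl ⟨(t, r), h⟩), by simp⟩
  | cons p l ih =>
    obtain ⟨l', a, b⟩ := ih
    rw [prodL_cons, sec_mul, prodL_n, add_zero, hr, lamp_eq, (sec_lp ..).resolve_right (not_not.2 h), a, hr]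
    split_ifs with e
    · refine ⟨(_, p.2) :: l', by rw [prodL_cons, lamp_eq], List.forall_mem_cons.2 ⟨⟨p, by simp, ?_⟩,
        fun q hq => (b q hq).imp fun _ k => ⟨by simp [k.1], k.2⟩⟩⟩
      rw [Int.mul_ediv_cancel' e]; ring
    · exact ⟨l', one_mul _, fun q hq => (b q hq).imp fun _ k => ⟨by simp [k.1], k.2⟩⟩

def Bd (c : ℕ) (g : Amb) : Prop := ∃ l, ∃ n : ℤ, g = prodL (sh 1) (lp 0) l * sh n ∧
  (∀ p ∈ l, -(c : ℤ) - 1 ≤ p.1 ∧ p.1 ≤ c) ∧ n.natAbs ≤ c + 1

def Nu : Set Amb := (fun p : ℤ × B × ℤ => lp p.1 p.2.1 * sh p.2.2) '' (Set.Icc (-1) 0 ×ˢ Set.univ ×ˢ Set.Icc (-1) 1)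

theorem bd_step {c g} (h : Bd c g) (x) : Bd (c - 1) (sc g x) ∧ (c = 0 → sc g x ∈ Nu) := by
  obtain ⟨⟨t, r⟩, e⟩ | y := x
  swap
  · exact ⟨⟨[], 0, by ext1 <;> rfl, by simp, by simp⟩, fun _ => ⟨(0, 1, 0), by simp, by simp; rfl⟩⟩
  obtain ⟨l, n, rfl, a, b⟩ := h
  obtain ⟨l', a', b'⟩ := sec_prodL (t := t) (r := (r + n) % dg t)
    ⟨Int.emod_nonneg _ (dg_pos _).ne', Int.emod_lt_of_pos _ (dg_pos _)⟩ l
  have e1 : sc (prodL (sh 1) (lp 0) l * sh n) (.inl ⟨(t, r), e⟩) = prodL (sh 1) (lp 0) l' * sh ((r + n) / dg t) := by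
    rw [← a']; exact sec_mul ..
  have e2 : ((r + n) / dg t).natAbs ≤ c - 1 + 1 := by cases t <;> simp [dg] at e ⊢ <;> omega
  refine ⟨⟨l', _, e1, fun p hp => ?_, e2⟩, ?_⟩
  · obtain ⟨q, k, f⟩ := b' p hp
    have := a q k
    cases t <;> simp [dg] at e f ⊢ <;> omega
  rintro rfl
  have : ∃ z : ℤ, (-1 ≤ z ∧ z ≤ 0) ∧ ∀ p ∈ l', p.1 = z := by
    refine ⟨if (r + n) % dg t = 0 then 0 else -1, by split_ifs <;> simp, fun p hp => ?_⟩
    obtain ⟨q, k, f⟩ := b' p hp
    have := a q k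
    cases t <;> simp [dg] at e f ⊢ <;> split_ifs <;> omega
  obtain ⟨z, z1, z2⟩ := this
  have : ∃ b, prodL (sh 1) (lp 0) l' = lp z b := by
    clear b' a' e1
    induction l' with
    | nil => exact ⟨1, (map_one _).symm⟩
    | cons p l ih =>
      obtain ⟨b, k⟩ := ih fun q hq => z2 q (by simp [hq])
      exact ⟨p.2 * b, by rw [prodL_cons, k, lamp_eq, z2 p (by simp), map_mul]⟩
  obtain ⟨b, k⟩ := this
  exact ⟨(z, b, (r + n) / dg t), ⟨z1, trivial, by simp only [Set.mem_Icc]; omega⟩, by rw [e1, k]⟩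

theorem bd_mem {c g} (h : Bd c g) : g ∈ G := by
  obtain ⟨l, n, rfl, -⟩ := h
  refine mul_mem (Subgroup.list_prod_mem _ fun y hy => ?_) (sh_mem _)
  obtain ⟨p, -, rfl⟩ := List.mem_map.1 hy
  exact lamp_eq _ _ ▸ lp_mem _ _

theorem mem_bd {g} (h : g ∈ G) : ∃ c, Bd c g := by
  obtain ⟨l, n, rfl⟩ := nf _ _ h
  refine ⟨(l.map fun p => p.1.natAbs).sum + n.natAbs, l, n, by rw [sh_pow], fun p hp => ?_, by omega⟩
  have := List.single_le_sum (l := l.map fun p => p.1.natAbs) (by simp) _ (List.mem_map_of_mem hp)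
  omega

theorem deep (v : List (Fin d)) : ∀ c g, Bd c g → c < v.length → ∃ h ∈ Nu, ∀ w,
    act g (v ++ w) = act g v ++ act h w := by
  induction v with
  | nil => intro c g _ l; simp at l
  | cons x v ih =>
    intro c g h l
    obtain _ | ⟨y, v⟩ := v
    · exact ⟨_, (bd_step h _).2 (by simpa using l), fun w => rfl⟩
    · obtain ⟨k, a, b⟩ := ih _ _ (bd_step h (en.symm x)).1 (by simp at l ⊢; omega)
      exact ⟨k, a, fun w => by rw [List.cons_append, act, b]; rfl⟩

theorem selfsim : Group.FG (G.map rho) ∧ (∀ g ∈ G.map rho, g [] = []) ∧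
    (∀ g ∈ G.map rho, ∀ x : Fin d, ∃ y : Fin d, ∃ h ∈ G.map rho, ∀ w : List (Fin d), g (x :: w) = y :: h w) ∧
    (∃ N : Finset (Equiv.Perm (List (Fin d))), ∀ g ∈ G.map rho, ∃ k : ℕ, ∀ v : List (Fin d),
        k ≤ v.length → ∀ h ∈ G.map rho, (∀ w : List (Fin d), g (v ++ w) = g v ++ h w) → h ∈ N) := by
  refine ⟨(Group.fg_iff_subgroup_fg _).2 ((Subgroup.fg_iff _).2
    ⟨_, (MonoidHom.map_closure ..).symm, ((Set.finite_range _).insert _).image _⟩), ?_, ?_, ?_⟩
  · rintro _ ⟨g, -, rfl⟩; rfl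
  · rintro _ ⟨g, hg, rfl⟩ x
    obtain ⟨c, h⟩ := mem_bd hg
    exact ⟨_, _, ⟨_, bd_mem (bd_step h (en.symm x)).1, rfl⟩, fun w => rfl⟩
  have : (rho '' Nu).Finite := (((Set.finite_Icc _ _).prod (Set.finite_univ.prod (Set.finite_Icc _ _))).image _).image _
  refine ⟨this.toFinset, ?_⟩
  rintro _ ⟨g, hg, rfl⟩
  obtain ⟨c, h⟩ := mem_bd hg
  refine ⟨c + 1, fun v l h' _ e => ?_⟩
  obtain ⟨k, a, b⟩ := deep v c g h l
  exact this.mem_toFinset.2 ⟨k, a, Equiv.ext fun w => List.append_cancel_left ((b w).symm.trans (e w))⟩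

noncomputable def iso : G ≃* G.map rho :=
  MulEquiv.ofBijective (rho.subgroupMap G) ⟨(injective_iff_map_eq_one _).2 fun g h =>
    Subtype.ext (faithful g.2 (congrArg Subtype.val h)), rho.subgroupMap_surjective G⟩

end Pool.Agent.H.MP_791a91_al
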